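import Pool.Agent.R995.CK.Main
import Pool.Agent.R995.CK.BALL
import Pool.Agent.R995.CK.SCHUR
import Pool.Agent.R995.CK.GREEN
import Pool.Agent.R995.CK.INN
import Pool.Agent.R995.CK.OUT

/-!
# MP_d4321b_an, Q1: every extremal for `S_q(α)` is positive up to sign
-/

set_option autoImplicit false

open MeasureTheory InnerProductSpace
open scoped ENNReal
open Pool.Agent.R995.CK

/-- Let `n ≥ 3` and `α ∈ (4 - n, n)`. The weighted Rellich inequality
`∫ |x|^(α-4) φ² ≤ C ∫ |x|^α |Δφ|²` holds for all test functions `φ`, and, if `q > 2` and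
`q ≤ 2n/(n-4)` in case `n ≥ 5`, every extremal `u` for `S_q(α)` satisfies `u > 0` almost
everywhere or `u < 0` almost everywhere. -/
theorem Pool.Agent.Results.MP_d4321b_an.ExtremalsPositive.result :
    ∀ (n : ℕ) (α : ℝ), 3 ≤ n → 4 - (n : ℝ) < α → α < n →
      (∃ C : ℝ≥0∞, C ≠ ⊤ ∧ ∀ φ : E n → ℝ, Test φ →
        wI (α - 4) 2 φ ≤ C * wI α 2 (Laplacian.laplacian φ)) ∧
      ∀ q : ℝ, 2 < q → (5 ≤ n → q ≤ 2 * n / (n - 4)) →
        ∀ u : E n → ℝ, Extremal α q u →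
          (∀ᵐ x : E n, 0 < u x) ∨ (∀ᵐ x : E n, u x < 0) := by
  intro n α hn h1 h2
  refine ⟨?_, ?_⟩
  · obtain ⟨c, hc, hG, -⟩ := t_GREEN n hn
    obtain ⟨C, hC, h⟩ := diff_le t_SCHUR t_BALL hn h1 h2 hc (show GR n c from hG)
    refine ⟨C, hC, fun φ hφ => ?_⟩
    have h3 := h φ (fun _ => 0) hφ aemeasurable_const (by simp [wI_sq])
    have e : ∀ x : E n, T (fun _ : E n => (0 : ℝ)) x = 0 := fun x => T_zero (by rfl) x
    simpa [e] using h3
  · intro q hq _ u hu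
    exact main t_SCHUR t_BALL t_GREEN (t_OUT t_BALL t_GREEN t_MULT) (t_INN t_BALL t_MULT) hn h1 h2
      (by linarith) hu
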